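import Pool.Agent.H99.LD.Res

/-!
# Resolution refutations of linear depth: the formula and the invariants
-/

namespace H99LD

open Finset

/-! ## The formula -/

/-- The data of the formula: `N` blocks of `b` variables, `M` vertices; the block `e` has `Δ` slots, the slot `j` is at the vertex
`f e j`; `φ` maps the content of a block to the charges of its slots; `x (e, i)` is the variable number `i` of the block `e`. -/
structure Data (n N M Δ b : ℕ) where
  f : Fin N → Fin Δ → Fin M
  φ : (Fin b → Bool) → Fin Δ → ZMod 2
  x : Fin N × Fin b ↪ Fin n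

variable {n N M Δ b : ℕ} (G : Data n N M Δ b)

/-- the content of the block `e` -/
def blk (Z : Fin n → Bool) (e : Fin N) : Fin b → Bool := fun i => Z (G.x (e, i))

/-- the charge of the vertex `v` -/
def ch (Z : Fin n → Bool) (v : Fin M) : ZMod 2 :=
  ∑ e : Fin N, ∑ j : Fin Δ, if G.f e j = v then G.φ (blk G Z e) j else 0

open Classical in
/-- the formula: all clauses of width at most `k` which contain all variables of some vertex `v` and whose negation implies that the
charge of `v` is not `β v` -/
noncomputable def cnf (β : Fin M → ZMod 2) (k : ℕ) : Finset (Clause n) :=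
  univ.filter fun C => C.card ≤ k ∧ ∃ v : Fin M,
    (∀ e j, G.f e j = v → ∀ i, ∃ s, (G.x (e, i), s) ∈ C) ∧
    ∀ Z, Falsifies Z C → ch G Z v ≠ β v

/-- the variables of the block `e` which do not occur in the clause `C` -/
def freeb (C : Clause n) (e : Fin N) : Finset (Fin b) :=
  univ.filter fun i => (G.x (e, i), true) ∉ C ∧ (G.x (e, i), false) ∉ C

/-- the blocks with at least `u` free variables -/
def opn (C : Clause n) (u : ℕ) : Finset (Fin N) :=
  univ.filter fun e => u ≤ (freeb G C e).card

/-- two vertices are adjacent in `A` if some block of `A` has slots at both -/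
def gr (A : Finset (Fin N)) : SimpleGraph (Fin M) where
  Adj v w := v ≠ w ∧ ∃ e ∈ A, ∃ j j', G.f e j = v ∧ G.f e j' = w
  symm := ⟨fun _ _ h => ⟨h.1.symm, by
    obtain ⟨_, e, he, j, j', h1, h2⟩ := h
    exact ⟨e, he, j', j, h2, h1⟩⟩⟩
  loopless := ⟨fun _ h => h.1 rfl⟩

open Classical in
/-- the component of `v` in the graph of `A` -/
noncomputable def comp (A : Finset (Fin N)) (v : Fin M) : Finset (Fin M) :=
  univ.filter fun w => (gr G A).Reachable v w

/-- `v` lies in the component with more than half of the vertices -/
def Maj (A : Finset (Fin N)) (v : Fin M) : Prop := M < 2 * (comp G A v).card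

open Classical in
/-- the vertices of the large component -/
noncomputable def majset (A : Finset (Fin N)) : Finset (Fin M) :=
  univ.filter fun v => Maj G A v

/-- `Z` violates exactly the vertex `v` -/
def Good (β : Fin M → ZMod 2) (Z : Fin n → Bool) (v : Fin M) : Prop :=
  ∀ w, ch G Z w = β w + if w = v then 1 else 0

/-- `Z` and `Z'` agree outside of the blocks of `D` -/
def Off (D : Finset (Fin N)) (Z Z' : Fin n → Bool) : Prop :=
  ∀ y, (∀ e ∈ D, ∀ i, y ≠ G.x (e, i)) → Z y = Z' y

/-- the blocks which contain a variable of the list -/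
def tch (vs : List (Fin n)) : Finset (Fin N) :=
  univ.filter fun e => ∃ i, G.x (e, i) ∈ vs

/-- the gadget property -/
def Gadget (u : ℕ) : Prop :=
  (∀ a, ∑ j, G.φ a j = 0) ∧
  ∀ (a : Fin b → Bool) (T : Finset (Fin b)), u ≤ T.card →
    ∀ y : Fin Δ → ZMod 2, ∑ j, y j = 0 → ∃ a', G.φ a' = y ∧ ∀ i ∉ T, a' i = a i

/-- the expansion property: fewer than `a` blocks lie inside a set of at most three quarters of the vertices -/
def Expand (a : ℕ) : Prop :=
  ∀ S : Finset (Fin M), 4 * S.card ≤ 3 * M → (univ.filter fun e => ∀ j, G.f e j ∈ S).card < a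

end H99LD
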