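import Mathlib

/-!
# Resolution refutations of linear depth: definitions

`Clause n`: clauses over the variables `0, ..., n-1`, a clause being a finite set of literals `(x, s)`;
the literal `(x, s)` is true under `Z` if `Z x = s`.
-/

namespace H99LD

open Finset

/-- A clause over `n` variables: a finite set of literals `(x, s)`, true when `x` has the value `s`. -/
abbrev Clause (n : ℕ) := Finset (Fin n × Bool)

/-- `Z` falsifies the clause `C`: all its literals are false. -/
def Falsifies {n : ℕ} (Z : Fin n → Bool) (C : Clause n) : Prop :=
  ∀ l ∈ C, Z l.1 ≠ l.2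

/-- The clauses of `F` have no common satisfying assignment. -/
def Unsat {n : ℕ} (F : Finset (Clause n)) : Prop :=
  ∀ Z : Fin n → Bool, ∃ C ∈ F, Falsifies Z C

/-- A resolution refutation of `F` with `S` lines (weakening allowed). Each line is either a leaf, which contains a clause of `F`, or it
follows by resolution on the variable `piv i` from the two earlier lines `pos i` (which may contain the literal `piv i`) and
`neg i` (which may contain its negation); the line `root` is the empty clause. -/
structure Refutation {n : ℕ} (F : Finset (Clause n)) (S : ℕ) where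
  line : Fin S → Clause n
  isLeaf : Fin S → Prop
  piv : Fin S → Fin n
  pos : Fin S → Fin S
  neg : Fin S → Fin S
  leaf_mem : ∀ i, isLeaf i → ∃ C ∈ F, C ⊆ line i
  pos_lt : ∀ i, ¬ isLeaf i → pos i < i
  neg_lt : ∀ i, ¬ isLeaf i → neg i < i
  pos_sub : ∀ i, ¬ isLeaf i → line (pos i) ⊆ insert (piv i, true) (line i)
  neg_sub : ∀ i, ¬ isLeaf i → line (neg i) ⊆ insert (piv i, false) (line i)
  root : Fin S
  root_empty : line root = ∅

/-- `IsPath R vs i`: some path of `R`, from the empty clause through premises, ends in the line `i`, and `vs` lists the variables which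
are resolved on along this path (one for each step, the last one first). -/
inductive IsPath {n : ℕ} {F : Finset (Clause n)} {S : ℕ} (R : Refutation F S) :
    List (Fin n) → Fin S → Prop
  | start : IsPath R [] R.root
  | stepPos {vs : List (Fin n)} {i : Fin S} : IsPath R vs i → ¬ R.isLeaf i →
      IsPath R (R.piv i :: vs) (R.pos i)
  | stepNeg {vs : List (Fin n)} {i : Fin S} : IsPath R vs i → ¬ R.isLeaf i →
      IsPath R (R.piv i :: vs) (R.neg i)

/-- The number of steps of a path which resolve on a variable outside `Y`. -/
def outside {n : ℕ} (Y : Finset (Fin n)) (vs : List (Fin n)) : ℕ :=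
  (vs.filter (fun x => x ∉ Y)).length

/-- On every path there is a set `Y` of at most `y` variables such that at most `D` steps of the path resolve on a variable
outside `Y`. -/
def Sparse {n : ℕ} {F : Finset (Clause n)} {S : ℕ} (R : Refutation F S) (D y : ℕ) : Prop :=
  ∀ vs i, IsPath R vs i → ∃ Y : Finset (Fin n), Y.card ≤ y ∧ outside Y vs ≤ D

end H99LD
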